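import Pool.Agent.Helper33.HU.Goals

/-!
# Project HU, packet PHI: the exponents which occur besides `a` are lower
-/

set_option autoImplicit false

namespace Pool.Agent.Helper89.HU

open Pool.Agent.Helper33.HU Finset

theorem phi_pos {n : ℕ} (a : Fin n → ℕ) (v : Fin n) (hv : a v ≠ 0) :
    ∀ i ∈ SS a v, 1 ≤ a i := by
  intro i hi
  rw [SS, Finset.mem_filter] at hi
  have h1 := hi.2
  rw [pos, pos] at h1
  by_contra hcon
  have h0 : a i = 0 := by omega
  have hv1 : (1 : ℤ) ≤ (a v : ℤ) := by
    have : 1 ≤ a v := Nat.one_le_iff_ne_zero.2 hv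
    exact_mod_cast this
  have hlt : ((v : ℕ) : ℤ) < (n : ℤ) := by exact_mod_cast v.isLt
  have hn : (0 : ℤ) ≤ (n : ℤ) := Int.natCast_nonneg _
  have h2 : (n : ℤ) * 1 ≤ (n : ℤ) * (a v : ℤ) := mul_le_mul_of_nonneg_left hv1 hn
  rw [h0] at h1
  have h3 : (0 : ℤ) ≤ ((i : ℕ) : ℤ) := Int.natCast_nonneg _
  push_cast at h1
  linarith

theorem gPHI : G_PHI := by
  intro n a v hv
  have hpos := phi_pos a v hv
  refine ⟨hpos, ?_⟩
  intro L hL hne
  rw [Finset.mem_powersetCard] at hL
  obtain ⟨hLT, hcard⟩ := hL
  set S := SS a v with hS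
  set b : Fin n → ℕ := fun i => a i - (if i ∈ S then 1 else 0) + (if i ∈ L then 1 else 0) with hb
  set p := pos a v with hp
  have hn : (1 : ℤ) ≤ (n : ℤ) := by
    have : 0 < n := lt_of_le_of_lt (Nat.zero_le _) v.isLt
    exact_mod_cast this
  have hsq : ∀ c : Fin n → ℕ, ((Ph c : ℕ) : ℤ) = ∑ i, (pos c i) ^ 2 := by
    intro c
    rw [Ph]
    push_cast
    refine Finset.sum_congr rfl fun i _ => ?_
    rw [sq_abs]
  -- termwise estimate
  have hterm : ∀ i : Fin n, (pos b i) ^ 2 ≤ (pos a i) ^ 2 +
      (if i ∈ S \ L then 2 * (n : ℤ) * p + n ^ 2 else 0) +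
      (if i ∈ L \ S then - 2 * (n : ℤ) * (p + n + 1) + n ^ 2 else 0) := by
    intro i
    by_cases hiS : i ∈ S
    · by_cases hiL : i ∈ L
      · have hbi : b i = a i := by
          have := hpos i hiS
          simp only [hb, if_pos hiS, if_pos hiL]
          omega
        have h1 : i ∉ S \ L := fun h => (Finset.mem_sdiff.1 h).2 hiL
        have h2 : i ∉ L \ S := fun h => (Finset.mem_sdiff.1 h).2 hiS
        rw [if_neg h1, if_neg h2, pos, pos, hbi]
        linarith
      · have hbi : ((b i : ℕ) : ℤ) = (a i : ℤ) - 1 := by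
          have := hpos i hiS
          simp only [hb, if_pos hiS, if_neg hiL]
          omega
        have h1 : i ∈ S \ L := Finset.mem_sdiff.2 ⟨hiS, hiL⟩
        have h2 : i ∉ L \ S := fun h => (Finset.mem_sdiff.1 h).2 hiS
        have hle : pos a i ≤ p := by
          rw [hS, SS, Finset.mem_filter] at hiS
          exact hiS.2
        have hpb : pos b i = pos a i + n := by
          rw [pos, pos, hbi]
          ring
        rw [if_pos h1, if_neg h2, hpb]
        nlinarith
    · by_cases hiL : i ∈ L
      · have hbi : ((b i : ℕ) : ℤ) = (a i : ℤ) + 1 := by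
          simp only [hb, if_neg hiS, if_pos hiL]
          push_cast
          omega
        have h1 : i ∉ S \ L := fun h => hiS (Finset.mem_sdiff.1 h).1
        have h2 : i ∈ L \ S := Finset.mem_sdiff.2 ⟨hiL, hiS⟩
        have hgt : p < pos a i := by
          by_contra hcon
          apply hiS
          rw [hS, SS, Finset.mem_filter]
          exact ⟨Finset.mem_univ _, not_lt.1 hcon⟩
        have hge : p + n ≤ pos a i := by
          by_contra hcon
          have := Finset.mem_compl.1 (hLT hiL)
          apply this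
          rw [TT, Finset.mem_filter]
          exact ⟨Finset.mem_univ _, hgt, not_le.1 hcon⟩
        have hge' : p + n + 1 ≤ pos a i := by
          rcases hge.lt_or_eq with h | h
          · linarith
          · exfalso
            -- `i ≡ v` modulo `n`
            have e1 : ((i : ℕ) : ℤ) - ((v : ℕ) : ℤ) = (n : ℤ) * ((a i : ℤ) - (a v : ℤ) + 1) := by
              rw [hp, pos, pos] at h
              linarith
            have hi1 : ((i : ℕ) : ℤ) < n := by exact_mod_cast i.isLt
            have hv1 : ((v : ℕ) : ℤ) < n := by exact_mod_cast v.isLt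
            have hi0 : (0 : ℤ) ≤ ((i : ℕ) : ℤ) := Int.natCast_nonneg _
            have hv0 : (0 : ℤ) ≤ ((v : ℕ) : ℤ) := Int.natCast_nonneg _
            have hz : (a i : ℤ) - (a v : ℤ) + 1 = 0 := by
              by_contra hz
              rcases lt_or_gt_of_ne hz with hlt | hlt
              · have h5 : (n : ℤ) * ((a i : ℤ) - (a v : ℤ) + 1) ≤ (n : ℤ) * (-1) :=
                  mul_le_mul_of_nonneg_left (by omega) (by linarith)
                linarith
              · have h5 : (n : ℤ) * 1 ≤ (n : ℤ) * ((a i : ℤ) - (a v : ℤ) + 1) :=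
                  mul_le_mul_of_nonneg_left (by omega) (by linarith)
                linarith
            rw [hz, mul_zero] at e1
            have hiv : i = v := Fin.ext (by omega)
            apply hiS
            rw [hiv, hS, SS, Finset.mem_filter]
            exact ⟨Finset.mem_univ _, le_rfl⟩
        have hpb : pos b i = pos a i - n := by
          rw [pos, pos, hbi]
          ring
        rw [if_neg h1, if_pos h2, hpb]
        nlinarith
      · have hbi : b i = a i := by
          simp only [hb, if_neg hiS, if_neg hiL]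
          omega
        have h1 : i ∉ S \ L := fun h => hiS (Finset.mem_sdiff.1 h).1
        have h2 : i ∉ L \ S := fun h => hiL (Finset.mem_sdiff.1 h).1
        rw [if_neg h1, if_neg h2, pos, pos, hbi]
        linarith
  have hm : (S \ L).card = (L \ S).card := Finset.card_sdiff_comm hcard.symm
  have hm1 : 1 ≤ (S \ L).card := by
    rw [Nat.one_le_iff_ne_zero, Finset.card_ne_zero]
    rw [Finset.sdiff_nonempty]
    intro hsub
    exact hne (Finset.eq_of_subset_of_card_le hsub hcard.le).symm
  have hsum : ∑ i, (pos b i) ^ 2 ≤ ∑ i, (pos a i) ^ 2 +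
      ((S \ L).card : ℤ) * (2 * (n : ℤ) * p + n ^ 2) +
      ((L \ S).card : ℤ) * (- 2 * (n : ℤ) * (p + n + 1) + n ^ 2) := by
    refine (Finset.sum_le_sum fun i _ => hterm i).trans (le_of_eq ?_)
    rw [Finset.sum_add_distrib, Finset.sum_add_distrib]
    congr 1
    · congr 1
      rw [Finset.sum_ite_mem, Finset.univ_inter, Finset.sum_const, nsmul_eq_mul]
    · rw [Finset.sum_ite_mem, Finset.univ_inter, Finset.sum_const, nsmul_eq_mul]
  have hfin : ((Ph b : ℕ) : ℤ) < ((Ph a : ℕ) : ℤ) := by
    rw [hsq, hsq]
    rw [← hm] at hsum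
    have hm1' : (1 : ℤ) ≤ ((S \ L).card : ℤ) := by exact_mod_cast hm1
    nlinarith
  exact_mod_cast hfin

end Pool.Agent.Helper89.HU
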